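import Pool.Agent.Helper22K.FN.Card
import Pool.Agent.Helper22K.FN.Exist

set_option autoImplicit false

open scoped TensorProduct Cardinal

namespace Pool.Agent.Results.MP_7f9919_an.NormsFullFreeGroup

open Pool.Agent.Helper965.CN Pool.Agent.Helper22K.FN

/-- The full C*-algebra `A` of the free group on countably many generators exists, and the number of
C*-norms on the algebraic tensor product of `A` with any unital C*-algebra `B` is 1 or at least
`2 ^ ℵ₀`; it is 1 or exactly `2 ^ ℵ₀` if `B` is separable, in particular if `B = A`. -/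
theorem result :
    (∃ (A : Type) (_ : CStarAlgebra A) (u : ℕ → A), IsFull A u) ∧
    ∀ (A : Type) [CStarAlgebra A] (u : ℕ → A), IsFull A u →
      TopologicalSpace.SeparableSpace A ∧
      ∀ (B : Type) [CStarAlgebra B],
        #{N : A ⊗[ℂ] B → ℝ // IsCStarNorm N} = 1 ∨
        (2 ^ ℵ₀ ≤ #{N : A ⊗[ℂ] B → ℝ // IsCStarNorm N} ∧
          (TopologicalSpace.SeparableSpace B →
            #{N : A ⊗[ℂ] B → ℝ // IsCStarNorm N} = 2 ^ ℵ₀)) := by
  refine ⟨exists_isFull, fun A _ u hA => ?_⟩
  have hsep : TopologicalSpace.SeparableSpace A := isFull_separable hA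
  refine ⟨hsep, fun B _ => ?_⟩
  refine (card_ge hA B).imp id fun h => ⟨h, fun hB => ?_⟩
  exact le_antisymm card_le h

end Pool.Agent.Results.MP_7f9919_an.NormsFullFreeGroup
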